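import Mathlib
import Pool.Agent.TH170.QD.Use
import Pool.Agent.TH170.VH.Main

/-!
# The noncommutative variational Hodge conjecture for all relative categories generated by abelian
schemes with a fibre of almost any CM type of arbitrary CM fields

Let `E` be a CM field of degree `2 g`; nothing is assumed about its Galois group. The automorphisms
of `ℂ` act on the set of the `2 g` complex embeddings of `E` through a finite group `G` (the Galois
group of the normal closure), and so on the space `V`, of dimension `g`, of the rational functions
on this set that change their sign under complex conjugation. There are `2 ^ g` CM types of `E`.
Let `E i` be finitely many CM fields, of degrees `2 g i`, that are pairwise independent: for `i ≠ k`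
and all complex embeddings `φ` of `E i` and `ψ` of `E k` some automorphism of `ℂ` is the identity on
`φ (E i)` and the complex conjugation on `ψ (E k)` (this is no condition for one field). There are
`2 ^ (∑ i, g i)` families `Φ` of CM types `Φ i` of the fields `E i`.

A family of abelian varieties (`Family`) is described on the universal covering `S` of its base: the
rational homology groups of the fibres are identified with one space `W`, and the fibre at `s` is given
by its tangent space `T s` and the map `per s : W → T s`. It is an abelian scheme (`IsAbelian`) if all
fibres are abelian varieties and some fibre is Hodge generic (very general fibres are). Classes on the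
fibre powers `A ^ n → S` are alternating forms on `W ^ n` (`Form`); they are flat. We assume that some
fibre is isogenous to the product of the abelian varieties `A i` of CM type `(E i, Φ i)`, each taken
once (`HasFibre`).

Let `𝒞` be an `S`-linear admissible subcategory of the category of perfect complexes on `X`, for a smooth
proper morphism `X → S`, whose noncommutative motive over `S` is a direct summand of a finite sum of
those of fibre powers of the abelian scheme `A → S` (`IsGeneratedNC`). Examples are all such
subcategories for the fibre powers themselves; if `A` is the Jacobian of a family of curves also for
products, symmetric powers and moduli spaces of vector bundles of these curves. The topological K-theory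
with rational coefficients is described by the flat classes `H`, the global sections `inv`, the Hodge
classes `hdg s` and the classes `alg s` of the objects of `𝒞_s` (`Variation`, `IsVariation`: algebraic
classes are Hodge classes, and a global section that is a Hodge class at one point is so at all
points). The products of rational Hodge classes of degree two are algebraic (Lefschetz).

We call the family of types `Φ` exceptional if the noncommutative variational Hodge conjecture
(`Variation.Holds`: a global section of the topological K-theory that is algebraic at one point is
algebraic at all points) fails for some such category `𝒞`, generated by some abelian scheme with a fibre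
of the types `Φ i`.

The theorem of Hazama (`HazamaTheorem`) is a hypothesis: if the rank of the Hodge group of a complex
abelian variety is equal to its dimension then all Hodge classes on all powers are generated by those of
degree two (Hazama, Algebraic cycles on certain abelian varieties and powers of special surfaces, 1984).
The rank is expressed by a torus of dimension `dim A` which fixes all Hodge classes on all powers
(`HasFullRank`).

The theorem bounds the number of the exceptional families (given Hazama's theorem): it is at most
`2 ^ (∑ i, g i) * ∑ i, ρ (E i)`, where `ρ (E)` (`rho g φ₀`) is the sum of the numbers `w (W)`
(`weight g φ₀ W`) over the isotypic components `W` of `V` (`components E`):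

* `w (W) = 0` if every minimal Galois-stable space in `W` contains a function with integral values
  whose sum over a CM type is odd;
* otherwise `w (W) = (2 d / (π g)) ^ (d / 2)` if `W` is itself a minimal space, of dimension `d`;
* otherwise `w (W)` is the smaller of `(53 λ d / g) ^ (c / 2)` (if
  `(10 ^ 4 + 10 λ) ^ 2 λ d ≤ 2 g`; replaced by `1` if not) and
  `8 (2 d / (π g)) ^ (d / 2) (10 ^ 4 + 10 λ + 6 √(d g)) ^ (d - c)`. Here `λ = log |G|`,
  `d = dim S` for the minimal spaces `S` in `W`, and `c = e + d - h`, where `e` is the dimension of
  the space of the equivariant endomorphisms of `S` and `h` the dimension of the space of the
  functions in `S` that are invariant under the stabilizer of a complex embedding.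

(If `S` is over `ℂ` the sum of `r` conjugate representations of degree `n` with the Schur index `m`,
which occur in `V` with the multiplicity `μ`, then `d = m r n`, `h = m r μ`, `e = m ^ 2 r`, and
`c = m r (n - μ + m)` is the codimension of the set of the degenerate elements. If `E` is normal
over `ℚ` then `μ = n` and `c = e = m ^ 2 r`.)

Let `Q` be the number of the imaginary quadratic subfields of `E` and `N d` the number of the
components `W` that are minimal spaces of dimension `d`. The second part (`RhoEstimate`) is the
estimate `ρ (E) ≤ Q / √g + 2 (N 2 + 1) / g + 3 N 3 / g ^ (3 / 2) + ∑ w (W)`, where the last sum is
over the components `W` which are not minimal, and the term `Q / √g` is omitted if `g` is odd. The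
third part (`NoMultipleComponents`) says that there are no such components if `E` is abelian over
`ℚ`, or if any two complex embeddings of `E` are exchanged by some automorphism of `ℂ` (for instance
`E = k F` for an imaginary quadratic field `k` and a totally real field `F` with this property, such
as the fields of degree `binomial (n, m)` which belong to the sets with `m` elements of roots of a
polynomial of degree `n` with real roots and Galois group `S_n`). Always `N 3 ≤ g / 3`; if `E` is
cyclic over `ℚ` then `g` is odd or `Q = 0`, and `N 2 ≤ 2`, `N 3 = 0`, `ρ (E) ≤ 6 / g`.

The proof: if no type `Φ i` is degenerate then the Hodge group of the fibre of CM type is a torus of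
dimension `dim A`, which fixes all Hodge classes on all powers of that fibre, and so all classes that
are Hodge classes on all fibres. The sign function of a degenerate CM type is orthogonal to a minimal Galois-stable space.
The number of the sign functions orthogonal to one space is estimated by a Fourier integral and the
inequality of Hölder. There are in general infinitely many minimal spaces isomorphic to `S`, but
modulo a prime number `p` that does not divide `|G|` there are only about `p ^ (h - e)` of them.
-/

namespace Pool.Agent.Results.MP_298761_ag.ThroughCMPoints

open NumberField Module Pool.Agent.H204R3.CM Pool.Agent.H977R3.CM Pool.Agent.TH170.CM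
  Pool.Agent.TH170.MF Pool.Agent.TH170.QD Pool.Agent.TH170

/-- The noncommutative variational Hodge conjecture for all relative categories generated by abelian
schemes with a fibre of the CM types `Φ i`. -/
def Holds {ι : Type} {E : ι → Type} [∀ i, Field (E i)] [∀ i, NumberField (E i)]
    (Φ : ∀ i, Set (E i →+* ℂ)) : Prop :=
  ∀ F : VH.Family (∀ i, E i), F.IsAbelian → F.HasFibre Φ → ∀ V : VH.Variation F.S, V.IsVariation →
    VH.IsGeneratedNC F V → V.Holds

/-- The exceptional families of CM types: the noncommutative variational Hodge conjecture fails for some
relative category generated by an abelian scheme with a fibre of the CM types `Φ i`. -/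
def exceptionalFamilies {ι : Type} (E : ι → Type) [∀ i, Field (E i)] [∀ i, NumberField (E i)] :
    Set (∀ i, Set (E i →+* ℂ)) :=
  {Φ | (∀ i, IsCMType (Φ i)) ∧ ¬ Holds Φ}

/-- **The noncommutative variational Hodge conjecture for all relative categories generated by abelian
schemes with a fibre of almost any CM type of CM fields (given the theorem of Hazama).** -/
theorem result (hH : VH.HazamaTheorem) :
    (∀ {ι : Type} [Fintype ι] (E : ι → Type) [∀ i, Field (E i)] [∀ i, NumberField (E i)]
      [∀ i, IsCMField (E i)] (g : ι → ℕ) (φ₀ : ∀ i, E i →+* ℂ), PairwiseIndep E →
      (∀ i, finrank ℚ (E i) = 2 * g i) →
      ((exceptionalFamilies E).ncard : ℝ) ≤ 2 ^ (∑ i, g i) * ∑ i, rho (g i) (φ₀ i)) ∧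
    RhoEstimate ∧ NoMultipleComponents := by
  refine ⟨fun E _ _ _ g φ₀ hE hg => ncard_families_le E hg φ₀ (fun Φ => Holds Φ) ?_, rho_bounds⟩
  intro Φ hΦ hnd F hF h0 V hV hG
  exact VH.nc_of_not_degenerate hH hΦ hE hnd F hF h0 V hV hG

end Pool.Agent.Results.MP_298761_ag.ThroughCMPoints
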